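import Pool.Agent.Helper96_LAX.Stmts

/-!
# Module PAR: the parameters
-/

set_option autoImplicit false

namespace Pool.Agent.LAX.H78

theorem exp_three : (17 : ℝ) ≤ Real.exp 3 := by
  have h1 : (2.7182818283 : ℝ) < Real.exp 1 := Real.exp_one_gt_d9
  have h2 : Real.exp 3 = Real.exp 1 ^ 3 := by
    rw [← Real.exp_nat_mul]
    norm_num
  rw [h2]
  have h3 : (2.7 : ℝ) ≤ Real.exp 1 := by linarith
  calc (17 : ℝ) ≤ 2.7 ^ 3 := by norm_num
    _ ≤ Real.exp 1 ^ 3 := pow_le_pow_left₀ (by norm_num) h3 3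

theorem par : ParStmt := by
  refine ⟨2 ^ 110, fun k hk => ?_⟩
  have hk1 : 1 ≤ k := le_trans Nat.one_le_two_pow hk
  have hk0 : (0 : ℝ) < k := by exact_mod_cast hk1
  have hlog0 : 0 ≤ Real.log k := Real.log_nonneg (by exact_mod_cast hk1)
  -- `l`
  have hex : ∃ l : ℕ, Real.log k + 3 ≤ (2 : ℝ) ^ l := by
    obtain ⟨l, hl⟩ := pow_unbounded_of_one_lt (Real.log k + 3) (by norm_num : (1 : ℝ) < 2)
    exact ⟨l, hl.le⟩
  classical
  obtain ⟨l, hl, hmin⟩ : ∃ l : ℕ, Real.log k + 3 ≤ (2 : ℝ) ^ l ∧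
      ∀ m < l, ¬ Real.log k + 3 ≤ (2 : ℝ) ^ m :=
    ⟨Nat.find hex, Nat.find_spec hex, fun m hm => Nat.find_min hex hm⟩
  have hl1 : 1 ≤ l := by
    by_contra h
    have h0 : l = 0 := by omega
    rw [h0, pow_zero] at hl
    linarith
  have hl2 : (2 : ℝ) ^ l ≤ 2 * (Real.log k + 3) := by
    have h := hmin (l - 1) (by omega)
    push Not at h
    have h2 : (2 : ℝ) ^ l = 2 * 2 ^ (l - 1) := by
      rw [← pow_succ', Nat.sub_add_cancel hl1]
    rw [h2]
    linarith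
  -- `K`
  obtain ⟨K, hK⟩ : ∃ K, K = Nat.log 2 k := ⟨_, rfl⟩
  have hK1 : 2 ^ K ≤ k := by
    rw [hK]
    exact Nat.pow_log_le_self 2 (by omega)
  have hK2 : k < 2 ^ (K + 1) := by
    rw [hK]
    exact Nat.lt_pow_succ_log_self (by norm_num) k
  have hK3 : 110 ≤ K := by
    by_contra h
    have h2 : 2 ^ (K + 1) ≤ 2 ^ 110 := Nat.pow_le_pow_right (by norm_num) (by omega)
    omega
  have hln : Real.log k ≤ K + 1 := by
    have h1 : (k : ℝ) ≤ 2 ^ (K + 1) := by exact_mod_cast hK2.le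
    have h2 := Real.log_le_log hk0 h1
    rw [Real.log_pow] at h2
    have h3 : Real.log 2 ≤ 1 := by
      have := Real.log_two_lt_d9
      linarith
    have h4 : ((K + 1 : ℕ) : ℝ) * Real.log 2 ≤ ((K + 1 : ℕ) : ℝ) * 1 :=
      mul_le_mul_of_nonneg_left h3 (by positivity)
    push_cast at h2 h4
    linarith
  have hKl : (K : ℝ) ≤ 2 * Real.log k := by
    have h1 : ((2 : ℝ)) ^ K ≤ k := by exact_mod_cast hK1
    have h2 := Real.log_le_log (by positivity) h1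
    rw [Real.log_pow] at h2
    have h3 : (1 / 2 : ℝ) ≤ Real.log 2 := by
      have := Real.log_two_gt_d9
      linarith
    have h4 : (K : ℝ) * (1 / 2) ≤ (K : ℝ) * Real.log 2 :=
      mul_le_mul_of_nonneg_left h3 (by positivity)
    linarith
  have hlK : l + 92 ≤ K := by
    by_contra h
    have h1 : 2 ^ (K - 91) ≤ 2 ^ l := Nat.pow_le_pow_right (by norm_num) (by omega)
    have h2 : (2 : ℝ) ^ l ≤ 2 * K + 8 := by linarith
    have h3 : 2 ^ l ≤ 2 * K + 8 := by exact_mod_cast h2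
    have h4 : K - 110 < 2 ^ (K - 110) := Nat.lt_two_pow_self
    have h5 : 2 ^ (K - 91) = 2 ^ 19 * 2 ^ (K - 110) := by
      rw [← pow_add]
      congr 1
      omega
    have h6 : (2 : ℕ) ^ 19 = 524288 := by norm_num
    rw [h5, h6] at h1
    omega
  -- `s`
  obtain ⟨N, hN⟩ : ∃ N, N = k * 2 ^ (2 * l) := ⟨_, rfl⟩
  have hN0 : N ≠ 0 := by
    rw [hN]
    positivity
  obtain ⟨s, hs⟩ : ∃ s, s = Nat.log 8 N := ⟨_, rfl⟩
  have hs1 : 2 ^ (3 * s) ≤ N := by
    rw [pow_mul, hs]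
    exact Nat.pow_log_le_self 8 hN0
  have hs2 : N < 2 ^ (3 * s + 3) := by
    have h1 : N < 8 ^ (s + 1) := by
      rw [hs]
      exact Nat.lt_pow_succ_log_self (by norm_num) N
    have h2 : (8 : ℕ) ^ (s + 1) = 2 ^ (3 * s + 3) := by
      rw [show 3 * s + 3 = 3 * (s + 1) by ring, pow_mul]
      norm_num
    rwa [h2] at h1
  have hs3 : 3 * s ≤ K + 2 * l := by
    have h1 : N < 2 ^ (K + 1 + 2 * l) := by
      rw [hN, pow_add]
      exact Nat.mul_lt_mul_of_pos_right hK2 (by positivity)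
    have h2 : 2 ^ (3 * s) < 2 ^ (K + 1 + 2 * l) := lt_of_le_of_lt hs1 h1
    have h3 := (Nat.pow_lt_pow_iff_right (by norm_num : 1 < 2)).1 h2
    omega
  have hs4 : K + 2 * l ≤ 3 * s + 2 := by
    have h1 : 2 ^ (K + 2 * l) ≤ N := by
      rw [hN, pow_add]
      exact Nat.mul_le_mul_right _ hK1
    have h2 : 2 ^ (K + 2 * l) < 2 ^ (3 * s + 3) := lt_of_le_of_lt h1 hs2
    have h3 := (Nat.pow_lt_pow_iff_right (by norm_num : 1 < 2)).1 h2
    omega
  refine ⟨l, s, K - s - 3, s - l - 5, ⟨?_, hl2, hN ▸ hs1, hN ▸ hs2, ?_, ?_, by omega, by omega,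
    by omega, by omega, ?_, hk1⟩⟩
  · have h1 : Real.exp (Real.log k + 3) ≤ Real.exp ((2 : ℝ) ^ l) := Real.exp_le_exp.2 hl
    rw [Real.exp_add, Real.exp_log hk0] at h1
    have h2 := mul_le_mul_of_nonneg_left exp_three hk0.le
    linarith
  · rw [show s + (K - s - 3) + 3 = K by omega]
    exact hK1
  · rw [show s + (K - s - 3) + 4 = K + 1 by omega]
    exact hK2
  · have h1 : (K : ℝ) ≤ 2 ^ (l + 1) := by
      rw [pow_succ]
      linarith
    have h2 : K ≤ 2 ^ (l + 1) := by exact_mod_cast h1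
    omega

end Pool.Agent.LAX.H78
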